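import Pool.Agent.helper29.RPQ.SpecP

/-!
# MP_07c750 (QUE), project RPQ, row BUA: the boundary integral for `4 ≤ |t| ≤ R^(9/16)`
-/

set_option autoImplicit false

open scoped MatrixGroups ContDiff Topology UpperHalfPlane ComplexConjugate
open UpperHalfPlane MeasureTheory Filter Set

namespace Pool.Agent.RPQ

open Pool.Agent.RS
open Pool.Agent.MS (BA BB st pf gk Dk amk)

theorem BUA_ofReal (n : ℕ) (f : ℝ → ℝ) (hf : ContDiff ℝ ∞ f) (x : ℝ) :
    ‖iteratedDeriv n (fun y => ((f y : ℝ) : ℂ)) x‖ = |iteratedDeriv n f x| := by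
  have h := Complex.ofRealLI.norm_iteratedFDeriv_comp_left (n := ∞) (hf.contDiffAt (x := x)) (i := n)
    (by exact_mod_cast le_top)
  rw [norm_iteratedFDeriv_eq_norm_iteratedDeriv, norm_iteratedFDeriv_eq_norm_iteratedDeriv] at h
  exact h

theorem BUA_mul (n : ℕ) (g a : ℝ → ℝ) (x M m L : ℝ) (hm : 1 ≤ m) (hM : 0 ≤ M) (hL : 0 ≤ L)
    (hg : ContDiffAt ℝ n g x) (ha : ContDiffAt ℝ n a x) (h1 : ∀ i ≤ n, |iteratedDeriv i g x| ≤ L)
    (h2 : ∀ i ≤ n, |iteratedDeriv i a x| ≤ M * m ^ i) :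
    |iteratedDeriv n (g * a) x| ≤ 2 ^ n * L * M * m ^ n := by
  rw [iteratedDeriv_mul hg ha]
  refine (Finset.abs_sum_le_sum_abs _ _).trans ?_
  have h5 : ∀ i ∈ Finset.range (n + 1), |(n.choose i : ℝ) * iteratedDeriv i g x * iteratedDeriv (n - i) a x| ≤
      (n.choose i : ℝ) * (L * M * m ^ n) := by
    intro i hi
    have hi2 := Finset.mem_range.1 hi
    rw [abs_mul, abs_mul, Nat.abs_cast, mul_assoc]
    refine mul_le_mul_of_nonneg_left ?_ (Nat.cast_nonneg _)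
    have h6 : M * m ^ (n - i) ≤ M * m ^ n := mul_le_mul_of_nonneg_left (pow_le_pow_right₀ hm (by omega)) hM
    calc |iteratedDeriv i g x| * |iteratedDeriv (n - i) a x| ≤ L * (M * m ^ n) :=
          mul_le_mul (h1 i (by omega)) ((h2 (n - i) (by omega)).trans h6) (abs_nonneg _) hL
      _ = L * M * m ^ n := by ring
  refine (Finset.sum_le_sum h5).trans ?_
  rw [← Finset.sum_mul]
  have h9 : ∑ i ∈ Finset.range (n + 1), (n.choose i : ℝ) = 2 ^ n := by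
    have h9 := Nat.sum_range_choose n
    exact_mod_cast h9
  rw [h9]
  exact le_of_eq (by ring)

theorem BUA_cpow (z s : ℝ) (hz : 0 < z) : (z : ℂ) ^ (-(1 / 2 : ℂ) + (s : ℂ) * Complex.I) =
    ((z ^ (-(1 / 2) : ℝ) : ℝ) : ℂ) * Complex.exp (((s * Real.log z : ℝ) : ℂ) * Complex.I) := by
  have hz' : (z : ℂ) ≠ 0 := by exact_mod_cast hz.ne'
  rw [Complex.cpow_add _ _ hz', Complex.ofReal_cpow hz.le, Complex.cpow_def_of_ne_zero hz' ((s : ℂ) * Complex.I),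
    ← Complex.ofReal_log hz.le]
  have h1 : (-(1 / 2 : ℂ)) = ((-(1 / 2) : ℝ) : ℂ) := by push_cast; ring
  have h2 : ((Real.log z : ℝ) : ℂ) * ((s : ℂ) * Complex.I) = ((s * Real.log z : ℝ) : ℂ) * Complex.I := by push_cast; ring
  rw [h1, h2]

/-- the size of the parameter -/
theorem BUA_par (R w t : ℝ) (hR : 1 ≤ R) (hw : w1 R ≤ w) (ht : 4 ≤ |t|) (ht2 : |t| ≤ R ^ (9 / 16 : ℝ)) :
    (1 / w / (R / (4 * |t|))) ^ 14 ≤ 4 ^ 14 * R ^ (-(7 / 8) : ℝ) := by
  have hR0 : 0 < R := by linarith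
  have hw0 : 0 < w1 R := Real.rpow_pos_of_pos hR0 _
  have hwp : 0 < w := hw0.trans_le hw
  have ht0 : 0 < |t| := by linarith
  have h1 : 1 / w / (R / (4 * |t|)) ≤ 4 * R ^ (-(1 / 16) : ℝ) := by
    have h2 : 1 / w ≤ R ^ (3 / 8 : ℝ) := by
      rw [div_le_iff₀ hwp]
      calc (1 : ℝ) = R ^ (3 / 8 : ℝ) * w1 R := by
            unfold w1
            rw [← Real.rpow_add hR0]
            norm_num
        _ ≤ R ^ (3 / 8 : ℝ) * w := mul_le_mul_of_nonneg_left hw (Real.rpow_nonneg hR0.le _)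
    have h3 : (1 / w) * (4 * |t|) ≤ R ^ (3 / 8 : ℝ) * (4 * R ^ (9 / 16 : ℝ)) :=
      mul_le_mul h2 (by linarith) (by positivity) (Real.rpow_nonneg hR0.le _)
    have h4 : R ^ (3 / 8 : ℝ) * (4 * R ^ (9 / 16 : ℝ)) = 4 * R ^ (-(1 / 16) : ℝ) * R := by
      have h5 : R ^ (3 / 8 : ℝ) * R ^ (9 / 16 : ℝ) = R ^ (-(1 / 16) : ℝ) * R := by
        nth_rewrite 4 [← Real.rpow_one R]
        rw [← Real.rpow_add hR0, ← Real.rpow_add hR0]
        norm_num
      linear_combination 4 * h5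
    have h6 : 1 / w / (R / (4 * |t|)) = (1 / w) * (4 * |t|) / R := by field_simp
    rw [h6, div_le_iff₀ hR0]
    linarith
  have h2 : 0 ≤ 1 / w / (R / (4 * |t|)) := by positivity
  calc (1 / w / (R / (4 * |t|))) ^ 14 ≤ (4 * R ^ (-(1 / 16) : ℝ)) ^ 14 := pow_le_pow_left₀ h2 h1 14
    _ = 4 ^ 14 * R ^ (-(7 / 8) : ℝ) := by
      rw [mul_pow, ← Real.rpow_natCast (R ^ (-(1 / 16) : ℝ)) 14, ← Real.rpow_mul hR0.le]
      norm_num

theorem BUA_inner (hNSM : NSM_stmt) (hLGB : LGB_stmt) (β : ℝ → ℝ) (hβ : SB (1 / 8) β) : ∃ C : ℝ, 0 < C ∧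
    ∀ R s w t τ : ℝ, 1 ≤ R → |s - R| ≤ R / 100 → w1 R ≤ w → w ≤ 1 → 4 ≤ |t| → |t| ≤ R ^ (9 / 16 : ℝ) → |τ| ≤ 1 / 4 →
    ‖∫ x in (-(w / 8))..(w / 8), ((((x - t) ^ 2 + Real.exp (2 * τ)) ^ (-(1 / 2) : ℝ) * (w ^ (-(1 / 2) : ℝ) * β (w⁻¹ * x)) : ℝ) : ℂ) *
      Complex.exp (((s * Real.log ((x - t) ^ 2 + Real.exp (2 * τ)) : ℝ) : ℂ) * Complex.I)‖ ≤ C * R ^ (-(7 / 8) : ℝ) := by
  obtain ⟨M, hM1, hM⟩ := hLGB 14
  obtain ⟨C0, hC0, hN⟩ := hNSM 14 (2 * M)
  -- the bound of the derivatives of `β`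
  have hBβ : ∃ Bb : ℝ, 1 ≤ Bb ∧ ∀ n : ℕ, n ≤ 14 → ∀ y ∈ Icc (-(1 / 8) : ℝ) (1 / 8), |iteratedDeriv n β y| ≤ Bb := by
    have h1 : ∀ n : ℕ, ∃ b : ℝ, ∀ y ∈ Icc (-(1 / 8) : ℝ) (1 / 8), |iteratedDeriv n β y| ≤ b := by
      intro n
      obtain ⟨b, hb⟩ := isCompact_Icc.exists_bound_of_continuousOn (s := Icc (-(1 / 8) : ℝ) (1 / 8))
        (hβ.1.continuous_iteratedDeriv n (by exact_mod_cast le_top)).continuousOn
      exact ⟨b, hb⟩
    choose b hb using h1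
    refine ⟨1 + ∑ n ∈ Finset.range 15, |b n|, ?_, ?_⟩
    · have : 0 ≤ ∑ n ∈ Finset.range 15, |b n| := Finset.sum_nonneg fun _ _ => abs_nonneg _
      linarith
    · intro n hn y hy
      have h2 := hb n y hy
      have h3 : |b n| ≤ ∑ n ∈ Finset.range 15, |b n| :=
        Finset.single_le_sum (f := fun n => |b n|) (fun _ _ => abs_nonneg _) (Finset.mem_range.2 (by omega))
      have h4 := le_abs_self (b n)
      linarith
  obtain ⟨Bb, hBb1, hBb⟩ := hBβ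
  refine ⟨C0 * (2 ^ 14 * M * Bb) * 4 ^ 14, by positivity, ?_⟩
  intro R s w t τ hR hs hw hw1 ht ht2 hτ
  have hR0 : 0 < R := by linarith
  have hwp : 0 < w := (Real.rpow_pos_of_pos hR0 _).trans_le hw
  have ht0 : 0 < |t| := by linarith
  have hs2 := abs_le.1 hs
  have hspos : 0 < s := by linarith
  obtain ⟨hq, hlg, hLG⟩ := hM t τ ht hτ
  have hx4 : ∀ x ∈ Icc (-(w / 8)) (w / 8), |x| ≤ 1 / 4 := by
    intro x hx
    rw [abs_le]
    exact ⟨by linarith [hx.1], by linarith [hx.2]⟩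
  have hβw : ContDiff ℝ ∞ (fun x => w ^ (-(1 / 2) : ℝ) * β (w⁻¹ * x)) :=
    contDiff_const.mul (hβ.1.comp (contDiff_const.mul contDiff_id))
  have hf : ContDiff ℝ ∞ (fun x => ((x - t) ^ 2 + Real.exp (2 * τ)) ^ (-(1 / 2) : ℝ) * (w ^ (-(1 / 2) : ℝ) * β (w⁻¹ * x))) :=
    hq.mul hβw
  have hwr : 0 ≤ w ^ (-(1 / 2) : ℝ) := Real.rpow_nonneg hwp.le _
  have hiβ : ∀ n ≤ 14, ∀ x ∈ Icc (-(w / 8)) (w / 8), |iteratedDeriv n (fun x => w ^ (-(1 / 2) : ℝ) * β (w⁻¹ * x)) x| ≤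
      (w ^ (-(1 / 2) : ℝ) * Bb) * (1 / w) ^ n := by
    intro n hn x hx
    rw [iteratedDeriv_const_mul_field, iteratedDeriv_comp_const_mul (hβ.1.of_le (by exact_mod_cast le_top))]
    have h1 : w⁻¹ * x ∈ Icc (-(1 / 8) : ℝ) (1 / 8) := by
      constructor
      · have h2 : w⁻¹ * (-(w / 8)) ≤ w⁻¹ * x := mul_le_mul_of_nonneg_left hx.1 (by positivity)
        have h3 : w⁻¹ * (-(w / 8)) = -(1 / 8) := by field_simp
        linarith
      · have h2 : w⁻¹ * x ≤ w⁻¹ * (w / 8) := mul_le_mul_of_nonneg_left hx.2 (by positivity)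
        have h3 : w⁻¹ * (w / 8) = 1 / 8 := by field_simp
        linarith
    have h2 := hBb n hn _ h1
    rw [abs_mul, abs_mul, abs_of_nonneg hwr, abs_of_nonneg (by positivity : (0 : ℝ) ≤ w⁻¹ ^ n), one_div w, mul_assoc]
    refine mul_le_mul_of_nonneg_left ?_ hwr
    rw [mul_comm]
    exact mul_le_mul_of_nonneg_right h2 (by positivity)
  have hmain := hN (fun x => ((((x - t) ^ 2 + Real.exp (2 * τ)) ^ (-(1 / 2) : ℝ) * (w ^ (-(1 / 2) : ℝ) * β (w⁻¹ * x)) : ℝ) : ℂ))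
    (fun x => s * Real.log ((x - t) ^ 2 + Real.exp (2 * τ))) (-(w / 8)) (w / 8)
    (2 ^ 14 * (M / |t|) * (w ^ (-(1 / 2) : ℝ) * Bb)) (1 / w) (R / (4 * |t|)) (by linarith)
    (Complex.ofRealCLM.contDiff.comp hf) (contDiff_const.mul hlg) ?_ ?_ (by positivity) (by positivity) ?_ ?_ ?_
  · refine hmain.trans ?_
    have hp := BUA_par R w t hR hw ht ht2
    have h1 : (w / 8 - -(w / 8)) * w ^ (-(1 / 2) : ℝ) ≤ 1 := by
      have h2 : w * w ^ (-(1 / 2) : ℝ) = w ^ (1 / 2 : ℝ) := by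
        nth_rewrite 1 [← Real.rpow_one w]
        rw [← Real.rpow_add hwp]
        norm_num
      have h3 : w ^ (1 / 2 : ℝ) ≤ 1 := Real.rpow_le_one hwp.le hw1 (by norm_num)
      have h4 : (w / 8 - -(w / 8)) * w ^ (-(1 / 2) : ℝ) = (w * w ^ (-(1 / 2) : ℝ)) / 4 := by ring
      rw [h4, h2]
      linarith
    have h5 : M / |t| ≤ M := div_le_self (by linarith) (by linarith)
    have hA : C0 * (w / 8 - -(w / 8)) * (2 ^ 14 * (M / |t|) * (w ^ (-(1 / 2) : ℝ) * Bb)) ≤ C0 * (2 ^ 14 * M * Bb) := by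
      have h6 : C0 * (w / 8 - -(w / 8)) * (2 ^ 14 * (M / |t|) * (w ^ (-(1 / 2) : ℝ) * Bb)) =
          (C0 * 2 ^ 14 * Bb) * ((M / |t|) * ((w / 8 - -(w / 8)) * w ^ (-(1 / 2) : ℝ))) := by ring
      have h7 : (M / |t|) * ((w / 8 - -(w / 8)) * w ^ (-(1 / 2) : ℝ)) ≤ M * 1 := by
        refine mul_le_mul h5 h1 ?_ (by linarith)
        have : 0 ≤ w / 8 - -(w / 8) := by linarith
        positivity
      calc C0 * (w / 8 - -(w / 8)) * (2 ^ 14 * (M / |t|) * (w ^ (-(1 / 2) : ℝ) * Bb))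
          = (C0 * 2 ^ 14 * Bb) * ((M / |t|) * ((w / 8 - -(w / 8)) * w ^ (-(1 / 2) : ℝ))) := h6
        _ ≤ (C0 * 2 ^ 14 * Bb) * (M * 1) := mul_le_mul_of_nonneg_left h7 (by positivity)
        _ = C0 * (2 ^ 14 * M * Bb) := by ring
    calc C0 * (w / 8 - -(w / 8)) * (2 ^ 14 * (M / |t|) * (w ^ (-(1 / 2) : ℝ) * Bb)) * (1 / w / (R / (4 * |t|))) ^ 14
        ≤ C0 * (2 ^ 14 * M * Bb) * (4 ^ 14 * R ^ (-(7 / 8) : ℝ)) :=
          mul_le_mul hA hp (by positivity) (by positivity)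
      _ = C0 * (2 ^ 14 * M * Bb) * 4 ^ 14 * R ^ (-(7 / 8) : ℝ) := by ring
  · intro x hx
    have h1 : β (w⁻¹ * x) ≠ 0 := by
      intro h
      apply hx
      change ((((x - t) ^ 2 + Real.exp (2 * τ)) ^ (-(1 / 2) : ℝ) * (w ^ (-(1 / 2) : ℝ) * β (w⁻¹ * x)) : ℝ) : ℂ) = 0
      rw [h, mul_zero, mul_zero, Complex.ofReal_zero]
    have h2 := abs_le.1 (hβ.2 _ h1)
    have h3 : x = w * (w⁻¹ * x) := by field_simp
    constructor
    · have h4 : w * (-(1 / 8)) ≤ w * (w⁻¹ * x) := mul_le_mul_of_nonneg_left h2.1 hwp.le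
      rw [← h3] at h4
      linarith
    · have h4 : w * (w⁻¹ * x) ≤ w * (1 / 8) := mul_le_mul_of_nonneg_left h2.2 hwp.le
      rw [← h3] at h4
      linarith
  · rw [le_div_iff₀ hwp]
    linarith
  · intro x hx
    have h1 := (hLG x (hx4 x hx)).1
    have h2 : deriv (fun x => s * Real.log ((x - t) ^ 2 + Real.exp (2 * τ))) x =
        s * deriv (fun x => Real.log ((x - t) ^ 2 + Real.exp (2 * τ))) x := deriv_const_mul_field s
    rw [h2, abs_mul, abs_of_pos hspos]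
    calc R / (4 * |t|) ≤ s * (1 / (2 * |t|)) := by
          rw [mul_one_div, div_le_div_iff₀ (by positivity) (by positivity)]
          have : 0 ≤ |t| * (s * 2 - R) := mul_nonneg ht0.le (by linarith)
          nlinarith
      _ ≤ _ := mul_le_mul_of_nonneg_left h1 hspos.le
  · intro n hn2 hn x hx
    have h1 := (hLG x (hx4 x hx)).2.2 n (by omega) hn
    rw [iteratedDeriv_const_mul_field, abs_mul, abs_of_pos hspos]
    have h2 : M / |t| ^ n ≤ M / (4 * |t|) := by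
      refine div_le_div_of_nonneg_left (by linarith) (by positivity) ?_
      calc 4 * |t| ≤ |t| * |t| := mul_le_mul_of_nonneg_right ht ht0.le
        _ = |t| ^ 2 := by ring
        _ ≤ |t| ^ n := pow_le_pow_right₀ (by linarith) hn2
    calc s * |iteratedDeriv n (fun x => Real.log ((x - t) ^ 2 + Real.exp (2 * τ))) x| ≤ (2 * R) * (M / (4 * |t|)) :=
          mul_le_mul (by linarith) (h1.trans h2) (abs_nonneg _) (by linarith)
      _ = 2 * M * (R / (4 * |t|)) := by ring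
  · intro n hn x hx
    rw [BUA_ofReal n _ hf x]
    have h1 := BUA_mul n (fun x => ((x - t) ^ 2 + Real.exp (2 * τ)) ^ (-(1 / 2) : ℝ)) (fun x => w ^ (-(1 / 2) : ℝ) * β (w⁻¹ * x))
      x (w ^ (-(1 / 2) : ℝ) * Bb) (1 / w) (M / |t|) (by rw [le_div_iff₀ hwp]; linarith) (by positivity) (by positivity)
      (hq.contDiffAt.of_le (by exact_mod_cast le_top)) (hβw.contDiffAt.of_le (by exact_mod_cast le_top)) ?_
      (fun i hi => hiβ i (by omega) x hx)
    · refine h1.trans ?_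
      have h3 : (2 : ℝ) ^ n ≤ 2 ^ 14 := pow_le_pow_right₀ (by norm_num) hn
      have h4 : 0 ≤ M / |t| * (w ^ (-(1 / 2) : ℝ) * Bb) * (1 / w) ^ n := by positivity
      calc (2 : ℝ) ^ n * (M / |t|) * (w ^ (-(1 / 2) : ℝ) * Bb) * (1 / w) ^ n
          = 2 ^ n * (M / |t| * (w ^ (-(1 / 2) : ℝ) * Bb) * (1 / w) ^ n) := by ring
        _ ≤ 2 ^ 14 * (M / |t| * (w ^ (-(1 / 2) : ℝ) * Bb) * (1 / w) ^ n) := mul_le_mul_of_nonneg_right h3 h4
        _ = 2 ^ 14 * (M / |t|) * (w ^ (-(1 / 2) : ℝ) * Bb) * (1 / w) ^ n := by ring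
    · intro i hi
      have h2 := (hLG x (hx4 x hx)).2.1 i (by omega)
      refine h2.trans (div_le_div_of_nonneg_left (by linarith) ht0 ?_)
      calc |t| = |t| ^ 1 := (pow_one _).symm
        _ ≤ |t| ^ (i + 1) := pow_le_pow_right₀ (by linarith) (by omega)

theorem BUA_proof (hNSM : NSM_stmt) (hLGB : LGB_stmt) (hCWB : CWB_stmt) : BUA_stmt := by
  intro α β hα hβ
  obtain ⟨C, hC, h⟩ := BUA_inner hNSM hLGB β hβ.1
  refine ⟨C, hC, ?_⟩
  intro R s w l t hR hs hw hw1 hl hl1 ht ht2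
  have hR0 : 0 < R := by linarith
  have hwp : 0 < w := (Real.rpow_pos_of_pos hR0 _).trans_le hw
  obtain ⟨hst, _, hsc, _, _, _, _, _, hcc, _⟩ := hCWB α β w l hα hβ hwp hw1 hl hl1
  rw [hcc]
  have hβx : ∀ x, st (Real.log w) β x = w ^ (-(1 / 2) : ℝ) * β (w⁻¹ * x) := by
    intro x
    rw [hst x, div_eq_inv_mul x w]
  have hin : ∀ τ : ℝ, ‖∫ x : ℝ, pr (st (Real.log w) β) (sc l α) x τ * Complex.exp ((((R - s) * τ : ℝ) : ℂ) * Complex.I) *
      ((((x - t) ^ 2 + Real.exp (2 * τ) : ℝ)) : ℂ) ^ (-(1 / 2 : ℂ) + (s : ℂ) * Complex.I)‖ ≤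
      sc l α τ * (C * R ^ (-(7 / 8) : ℝ)) := by
    intro τ
    by_cases h0 : sc l α τ = 0
    · have h1 : ∀ x : ℝ, pr (st (Real.log w) β) (sc l α) x τ * Complex.exp ((((R - s) * τ : ℝ) : ℂ) * Complex.I) *
          ((((x - t) ^ 2 + Real.exp (2 * τ) : ℝ)) : ℂ) ^ (-(1 / 2 : ℂ) + (s : ℂ) * Complex.I) = 0 := by
        intro x
        unfold pr
        rw [h0, mul_zero, Complex.ofReal_zero, zero_mul, zero_mul]
      rw [integral_congr_ae (ae_of_all _ h1), integral_zero, norm_zero, h0, zero_mul]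
    · have hτ : |τ| ≤ 1 / 4 := by
        have h1 := hsc.1.2 τ h0
        linarith
      have h1 : ∀ x : ℝ, pr (st (Real.log w) β) (sc l α) x τ * Complex.exp ((((R - s) * τ : ℝ) : ℂ) * Complex.I) *
          ((((x - t) ^ 2 + Real.exp (2 * τ) : ℝ)) : ℂ) ^ (-(1 / 2 : ℂ) + (s : ℂ) * Complex.I) =
          (((sc l α τ : ℝ) : ℂ) * Complex.exp ((((R - s) * τ : ℝ) : ℂ) * Complex.I)) *
          (((((x - t) ^ 2 + Real.exp (2 * τ)) ^ (-(1 / 2) : ℝ) * (w ^ (-(1 / 2) : ℝ) * β (w⁻¹ * x)) : ℝ) : ℂ) *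
            Complex.exp (((s * Real.log ((x - t) ^ 2 + Real.exp (2 * τ)) : ℝ) : ℂ) * Complex.I)) := by
        intro x
        have hz : 0 < (x - t) ^ 2 + Real.exp (2 * τ) := by positivity
        rw [BUA_cpow _ _ hz]
        unfold pr
        rw [hβx x]
        simp only [Complex.ofReal_mul]
        ring
      rw [integral_congr_ae (ae_of_all _ h1), integral_const_mul, norm_mul, norm_mul, Complex.norm_exp_ofReal_mul_I, mul_one,
        Complex.norm_real, Real.norm_eq_abs, abs_of_nonneg (hsc.2.1 τ)]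
      refine mul_le_mul_of_nonneg_left ?_ (hsc.2.1 τ)
      have h2 := h R s w t τ hR hs hw hw1 ht ht2 hτ
      rw [intervalIntegral.integral_of_le (by linarith), ← integral_Icc_eq_integral_Ioc,
        setIntegral_eq_integral_of_forall_compl_eq_zero] at h2
      · exact h2
      · intro x hx
        have h3 : β (w⁻¹ * x) = 0 := by
          by_contra h4
          apply hx
          have h5 := abs_le.1 (hβ.1.2 _ h4)
          have h6 : x = w * (w⁻¹ * x) := by field_simp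
          constructor
          · have h7 : w * (-(1 / 8)) ≤ w * (w⁻¹ * x) := mul_le_mul_of_nonneg_left h5.1 hwp.le
            rw [← h6] at h7
            linarith
          · have h7 : w * (w⁻¹ * x) ≤ w * (1 / 8) := mul_le_mul_of_nonneg_left h5.2 hwp.le
            rw [← h6] at h7
            linarith
        rw [h3, mul_zero, mul_zero, Complex.ofReal_zero, zero_mul]
  have hint : Integrable (fun τ => sc l α τ * (C * R ^ (-(7 / 8) : ℝ))) := by
    refine Integrable.mul_const ?_ _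
    refine hsc.1.1.continuous.integrable_of_hasCompactSupport ?_
    refine HasCompactSupport.of_support_subset_isCompact (isCompact_Icc (a := -(l / 8)) (b := l / 8)) ?_
    intro τ hτ
    exact abs_le.1 (hsc.1.2 τ hτ)
  have h1 := norm_integral_le_of_norm_le hint (ae_of_all _ hin)
  rw [integral_mul_const, hsc.2.2, one_mul] at h1
  exact h1

end Pool.Agent.RPQ
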