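import Pool.Agent.helper29.RPQ.SpecP

/-!
# MP_07c750 (QUE), project RPQ, row NSM: repeated integration by parts
-/

set_option autoImplicit false

open scoped MatrixGroups ContDiff Topology UpperHalfPlane ComplexConjugate
open UpperHalfPlane MeasureTheory Filter Set

namespace Pool.Agent.RPQ

/-- the derivatives of a reciprocal -/
theorem NSM_inv (C1 : ℝ) (N : ℕ) : ∃ K : ℝ, 1 ≤ K ∧ ∀ (f : ℝ → ℝ) (x lam : ℝ), 0 < lam → ContDiff ℝ ∞ f → lam ≤ |f x| →
    (∀ i : ℕ, 1 ≤ i → i ≤ N → |iteratedDeriv i f x| ≤ C1 * lam) →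
    ∀ j : ℕ, j ≤ N → |iteratedDeriv j (fun y => (f y)⁻¹) x| ≤ K / lam := by
  induction N with
  | zero =>
    refine ⟨1, le_rfl, fun f x lam hl _ hf _ j hj => ?_⟩
    rw [Nat.le_zero.1 hj, iteratedDeriv_zero, abs_inv, one_div]
    exact inv_anti₀ hl hf
  | succ N ih =>
    obtain ⟨K, hK, h⟩ := ih
    have hpow : (0 : ℝ) ≤ 2 ^ (N + 1) * |C1| := by positivity
    refine ⟨K + 2 ^ (N + 1) * |C1| * K, ?_, fun f x lam hl hs hf hi j hj => ?_⟩
    · have : 0 ≤ 2 ^ (N + 1) * |C1| * K := by positivity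
      linarith
    have hK0 : 0 ≤ K := by linarith
    have h0 := h f x lam hl hs hf (fun i h1 h2 => hi i h1 (by omega))
    rcases Nat.lt_or_ge j (N + 1) with hj1 | hj1
    · refine (h0 j (by omega)).trans ?_
      rw [div_le_div_iff_of_pos_right hl]
      have : 0 ≤ 2 ^ (N + 1) * |C1| * K := by positivity
      linarith
    · have hj2 : j = N + 1 := by omega
      subst hj2
      have hfx : f x ≠ 0 := by
        intro h1
        rw [h1, abs_zero] at hf
        linarith
      have hsx : ∀ n : ℕ, ContDiffAt ℝ n f x := fun n => (hs.of_le (by exact_mod_cast le_top)).contDiffAt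
      have hgx : ∀ n : ℕ, ContDiffAt ℝ n (fun y => (f y)⁻¹) x := fun n => (hsx n).inv hfx
      have h1 := iteratedDeriv_mul (n := N + 1) (hsx (N + 1)) (hgx (N + 1))
      have h2 : iteratedDeriv (N + 1) (f * fun y => (f y)⁻¹) x = 0 := by
        have h3 : (f * fun y => (f y)⁻¹) =ᶠ[𝓝 x] fun _ => 1 := by
          filter_upwards [hs.continuous.continuousAt.eventually_ne hfx] with y hy
          exact mul_inv_cancel₀ hy
        rw [h3.iteratedDeriv_eq, iteratedDeriv_const]
        rw [if_neg (by omega)]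
      rw [h2, Finset.sum_range_succ'] at h1
      simp only [Nat.choose_zero_right, Nat.cast_one, one_mul, iteratedDeriv_zero, Nat.sub_zero] at h1
      have h3 : f x * iteratedDeriv (N + 1) (fun y => (f y)⁻¹) x =
          -∑ i ∈ Finset.range (N + 1), ((N + 1).choose (i + 1) : ℝ) * iteratedDeriv (i + 1) f x *
            iteratedDeriv (N + 1 - (i + 1)) (fun y => (f y)⁻¹) x := by linarith
      have h4 : |f x| * |iteratedDeriv (N + 1) (fun y => (f y)⁻¹) x| ≤ 2 ^ (N + 1) * |C1| * K := by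
        rw [← abs_mul, h3, abs_neg]
        refine (Finset.abs_sum_le_sum_abs _ _).trans ?_
        have h5 : ∀ i ∈ Finset.range (N + 1), |((N + 1).choose (i + 1) : ℝ) * iteratedDeriv (i + 1) f x *
            iteratedDeriv (N + 1 - (i + 1)) (fun y => (f y)⁻¹) x| ≤ ((N + 1).choose (i + 1) : ℝ) * (|C1| * K) := by
          intro i hi'
          have hi2 := Finset.mem_range.1 hi'
          rw [abs_mul, abs_mul, Nat.abs_cast, mul_assoc]
          refine mul_le_mul_of_nonneg_left ?_ (Nat.cast_nonneg _)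
          have h6 : |iteratedDeriv (i + 1) f x| ≤ |C1| * lam :=
            (hi (i + 1) (by omega) (by omega)).trans (mul_le_mul_of_nonneg_right (le_abs_self _) hl.le)
          have h7 := h0 (N + 1 - (i + 1)) (by omega)
          calc |iteratedDeriv (i + 1) f x| * |iteratedDeriv (N + 1 - (i + 1)) (fun y => (f y)⁻¹) x|
              ≤ (|C1| * lam) * (K / lam) := mul_le_mul h6 h7 (abs_nonneg _) (by positivity)
            _ = |C1| * K := by field_simp
        refine (Finset.sum_le_sum h5).trans ?_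
        rw [← Finset.sum_mul, mul_assoc]
        refine mul_le_mul_of_nonneg_right ?_ (by positivity)
        have h8 : ∑ i ∈ Finset.range (N + 1), ((N + 1).choose (i + 1) : ℝ) ≤
            ∑ i ∈ Finset.range (N + 1 + 1), ((N + 1).choose i : ℝ) := by
          rw [Finset.sum_range_succ' (fun i => ((N + 1).choose i : ℝ)) (N + 1)]
          have : (0 : ℝ) ≤ ((N + 1).choose 0 : ℝ) := Nat.cast_nonneg _
          linarith
        refine h8.trans (le_of_eq ?_)
        have h9 := Nat.sum_range_choose (N + 1)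
        exact_mod_cast h9
      have h5 : lam * |iteratedDeriv (N + 1) (fun y => (f y)⁻¹) x| ≤ 2 ^ (N + 1) * |C1| * K :=
        (mul_le_mul_of_nonneg_right hf (abs_nonneg _)).trans h4
      rw [le_div_iff₀ hl, mul_comm]
      linarith

theorem NSM_smul (n : ℕ) (g : ℝ → ℝ) (a : ℝ → ℂ) (x M m L : ℝ) (hm : 1 ≤ m) (hM : 0 ≤ M) (hL : 0 ≤ L)
    (hg : ContDiffAt ℝ n g x) (ha : ContDiffAt ℝ n a x) (h1 : ∀ i ≤ n, |iteratedDeriv i g x| ≤ L)
    (h2 : ∀ i ≤ n, ‖iteratedDeriv i a x‖ ≤ M * m ^ i) :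
    ‖iteratedDeriv n (fun y => g y • a y) x‖ ≤ 2 ^ n * L * M * m ^ n := by
  have h3 : iteratedDeriv n (fun y => g y • a y) x = ∑ i ∈ Finset.range (n + 1),
      n.choose i • iteratedDeriv i g x • iteratedDeriv (n - i) a x := by
    have h4 := iteratedDerivWithin_smul (mem_univ x) uniqueDiffOn_univ hg.contDiffWithinAt ha.contDiffWithinAt
    simp only [iteratedDerivWithin_univ] at h4
    exact h4
  rw [h3]
  refine (norm_sum_le _ _).trans ?_
  have h5 : ∀ i ∈ Finset.range (n + 1), ‖n.choose i • iteratedDeriv i g x • iteratedDeriv (n - i) a x‖ ≤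
      (n.choose i : ℝ) * (L * M * m ^ n) := by
    intro i hi
    have hi2 := Finset.mem_range.1 hi
    rw [← Nat.cast_smul_eq_nsmul ℝ, norm_smul, norm_smul, Real.norm_natCast, Real.norm_eq_abs]
    refine mul_le_mul_of_nonneg_left ?_ (Nat.cast_nonneg _)
    have h6 : M * m ^ (n - i) ≤ M * m ^ n := mul_le_mul_of_nonneg_left (pow_le_pow_right₀ hm (by omega)) hM
    calc |iteratedDeriv i g x| * ‖iteratedDeriv (n - i) a x‖ ≤ L * (M * m ^ n) :=
          mul_le_mul (h1 i (by omega)) ((h2 (n - i) (by omega)).trans h6) (norm_nonneg _) hL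
      _ = L * M * m ^ n := by ring
  refine (Finset.sum_le_sum h5).trans ?_
  rw [← Finset.sum_mul]
  have h9 : ∑ i ∈ Finset.range (n + 1), (n.choose i : ℝ) = 2 ^ n := by
    have h9 := Nat.sum_range_choose n
    exact_mod_cast h9
  rw [h9]
  exact le_of_eq (by ring)

/-- one integration by parts -/
theorem NSM_parts (a : ℝ → ℂ) (θ : ℝ → ℝ) (A B : ℝ) (hAB : A ≤ B) (ha : ContDiff ℝ ∞ a) (hθ : ContDiff ℝ ∞ θ)
    (hs : ∀ x, a x ≠ 0 → x ∈ Icc A B) (hne : ∀ x ∈ Icc A B, deriv θ x ≠ 0) :
    ContDiff ℝ ∞ (fun y => (deriv θ y)⁻¹ • a y) ∧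
    (∀ x, deriv (fun y => (deriv θ y)⁻¹ • a y) x ≠ 0 → x ∈ Icc A B) ∧
    ‖∫ x in A..B, a x * Complex.exp ((θ x : ℂ) * Complex.I)‖ =
      ‖∫ x in A..B, deriv (fun y => (deriv θ y)⁻¹ • a y) x * Complex.exp ((θ x : ℂ) * Complex.I)‖ := by
  have hdθ : ContDiff ℝ ∞ (deriv θ) := by
    have h := hθ
    rw [show (∞ : WithTop ℕ∞) = ∞ + 1 from rfl, contDiff_succ_iff_deriv] at h
    exact h.2.2
  have hout : ∀ x, x ∉ Icc A B → (fun y => (deriv θ y)⁻¹ • a y) =ᶠ[𝓝 x] fun _ => 0 := by
    intro x hx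
    filter_upwards [isClosed_Icc.isOpen_compl.mem_nhds hx] with y hy
    have h0 : a y = 0 := by
      by_contra h
      exact hy (hs y h)
    rw [h0, smul_zero]
  have hsm : ContDiff ℝ ∞ (fun y => (deriv θ y)⁻¹ • a y) := by
    rw [contDiff_iff_contDiffAt]
    intro x
    by_cases hx : x ∈ Icc A B
    · exact (hdθ.contDiffAt.inv (hne x hx)).smul ha.contDiffAt
    · exact contDiffAt_const.congr_of_eventuallyEq (hout x hx)
  refine ⟨hsm, ?_, ?_⟩
  · intro x hx
    by_contra h
    apply hx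
    rw [(hout x h).deriv_eq, deriv_const]
  have haB : a B = 0 := by
    have h1 : IsClosed {x | a x = 0} := isClosed_eq ha.continuous continuous_const
    have h2 : Ioi B ⊆ {x | a x = 0} := by
      intro x hx
      by_contra h
      exact absurd (hs x h).2 (not_le.2 hx)
    have h3 := h1.closure_subset_iff.2 h2
    rw [closure_Ioi] at h3
    exact h3 (mem_Ici.2 le_rfl)
  have haA : a A = 0 := by
    have h1 : IsClosed {x | a x = 0} := isClosed_eq ha.continuous continuous_const
    have h2 : Iio A ⊆ {x | a x = 0} := by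
      intro x hx
      by_contra h
      exact absurd (hs x h).1 (not_le.2 hx)
    have h3 := h1.closure_subset_iff.2 h2
    rw [closure_Iio] at h3
    exact h3 (mem_Iic.2 le_rfl)
  set g : ℝ → ℂ := fun y => (deriv θ y)⁻¹ • a y with hg
  have hE : Continuous fun x => Complex.exp ((θ x : ℂ) * Complex.I) :=
    Complex.continuous_exp.comp ((Complex.continuous_ofReal.comp hθ.continuous).mul continuous_const)
  have hdg : Continuous (deriv g) := hsm.continuous_deriv (by exact_mod_cast le_top)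
  have hder : ∀ x ∈ uIcc A B, HasDerivAt (fun x => g x * Complex.exp ((θ x : ℂ) * Complex.I))
      (deriv g x * Complex.exp ((θ x : ℂ) * Complex.I) + Complex.I * (a x * Complex.exp ((θ x : ℂ) * Complex.I))) x := by
    intro x hx
    rw [uIcc_of_le hAB] at hx
    have h1 : HasDerivAt g (deriv g x) x := (hsm.differentiable (by simp) x).hasDerivAt
    have h2 : HasDerivAt θ (deriv θ x) x := (hθ.differentiable (by simp) x).hasDerivAt
    have h3a : HasDerivAt (fun x : ℝ => (θ x : ℂ)) ((deriv θ x : ℝ) : ℂ) x := h2.ofReal_comp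
    have h3b : HasDerivAt (fun x : ℝ => (θ x : ℂ) * Complex.I) (((deriv θ x : ℝ) : ℂ) * Complex.I) x :=
      h3a.mul_const Complex.I
    have h3 := h3b.cexp
    have h4 := h1.mul h3
    refine h4.congr_deriv ?_
    have h5 : ((deriv θ x : ℝ) : ℂ) * g x = a x := by
      rw [hg]
      change ((deriv θ x : ℝ) : ℂ) * ((deriv θ x)⁻¹ • a x) = a x
      rw [Complex.real_smul, Complex.ofReal_inv, ← mul_assoc, mul_inv_cancel₀, one_mul]
      exact_mod_cast hne x hx
    rw [← h5]
    ring
  have hint := intervalIntegral.integral_eq_sub_of_hasDerivAt hder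
    (((hdg.mul hE).add (continuous_const.mul (ha.continuous.mul hE))).intervalIntegrable A B)
  have hi1 : IntervalIntegrable (fun x => deriv g x * Complex.exp ((θ x : ℂ) * Complex.I)) volume A B :=
    (hdg.mul hE).intervalIntegrable A B
  have hi2 : IntervalIntegrable (fun x => Complex.I * (a x * Complex.exp ((θ x : ℂ) * Complex.I))) volume A B :=
    (continuous_const.mul (ha.continuous.mul hE)).intervalIntegrable A B
  rw [intervalIntegral.integral_add hi1 hi2, intervalIntegral.integral_const_mul] at hint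
  have hgB : g B = 0 := by rw [hg]; simp [haB]
  have hgA : g A = 0 := by rw [hg]; simp [haA]
  rw [hgB, hgA, zero_mul, zero_mul, sub_zero] at hint
  have h6 : (∫ x in A..B, deriv g x * Complex.exp ((θ x : ℂ) * Complex.I)) =
      -(Complex.I * ∫ x in A..B, a x * Complex.exp ((θ x : ℂ) * Complex.I)) := eq_neg_of_add_eq_zero_left hint
  rw [h6, norm_neg, norm_mul, Complex.norm_I, one_mul]

theorem NSM_proof : NSM_stmt := by
  intro k C1
  induction k with
  | zero =>
    refine ⟨1, one_pos, fun a θ A B M m lam hAB _ _ _ _ _ _ _ _ h => ?_⟩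
    rw [pow_zero, mul_one, one_mul]
    have h1 : ∀ x ∈ uIoc A B, ‖a x * Complex.exp ((θ x : ℂ) * Complex.I)‖ ≤ M := by
      intro x hx
      rw [uIoc_of_le hAB] at hx
      rw [norm_mul, Complex.norm_exp_ofReal_mul_I, mul_one]
      have h2 := h 0 le_rfl x ⟨hx.1.le, hx.2⟩
      rw [iteratedDeriv_zero, pow_zero, mul_one] at h2
      exact h2
    have h2 := intervalIntegral.norm_integral_le_of_norm_le_const h1
    rw [abs_of_nonneg (by linarith)] at h2
    linarith
  | succ k ih =>
    obtain ⟨C, hC, h⟩ := ih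
    obtain ⟨K, hK, hinv⟩ := NSM_inv C1 (k + 1)
    refine ⟨C * (2 ^ (k + 1) * K), by positivity, ?_⟩
    intro a θ A B M m lam hAB ha hθ hs hm hlam hM hlo hup hamp
    have hne : ∀ x ∈ Icc A B, deriv θ x ≠ 0 := by
      intro x hx h0
      have h1 := hlo x hx
      rw [h0, abs_zero] at h1
      linarith
    obtain ⟨hsm, hsupp, heq⟩ := NSM_parts a θ A B hAB ha hθ hs hne
    rw [heq]
    have hdθ : ContDiff ℝ ∞ (deriv θ) := by
      have h := hθ
      rw [show (∞ : WithTop ℕ∞) = ∞ + 1 from rfl, contDiff_succ_iff_deriv] at h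
      exact h.2.2
    have hdsm : ContDiff ℝ ∞ (deriv fun y => (deriv θ y)⁻¹ • a y) := by
      have h := hsm
      rw [show (∞ : WithTop ℕ∞) = ∞ + 1 from rfl, contDiff_succ_iff_deriv] at h
      exact h.2.2
    have hL : 0 ≤ K / lam := by positivity
    have hb : ∀ n : ℕ, n ≤ k → ∀ x ∈ Icc A B, ‖iteratedDeriv n (deriv fun y => (deriv θ y)⁻¹ • a y) x‖ ≤
        (2 ^ (k + 1) * (K / lam) * M * m) * m ^ n := by
      intro n hn x hx
      rw [← iteratedDeriv_succ']
      have h1 := hinv (deriv θ) x lam hlam hdθ (hlo x hx) (fun i h1 h2 => by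
        rw [← iteratedDeriv_succ']
        exact hup (i + 1) (by omega) (by omega) x hx)
      have h2 := NSM_smul (n + 1) (fun y => (deriv θ y)⁻¹) a x M m (K / lam) hm hM hL
        ((hdθ.contDiffAt.of_le (by exact_mod_cast le_top)).inv (hne x hx))
        (ha.contDiffAt.of_le (by exact_mod_cast le_top)) (fun i hi => h1 i (by omega))
        (fun i hi => hamp i (by omega) x hx)
      refine h2.trans ?_
      have h3 : (2 : ℝ) ^ (n + 1) ≤ 2 ^ (k + 1) := pow_le_pow_right₀ (by norm_num) (by omega)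
      have h4 : 0 ≤ K / lam * M * m ^ (n + 1) := by positivity
      calc (2 : ℝ) ^ (n + 1) * (K / lam) * M * m ^ (n + 1) = 2 ^ (n + 1) * (K / lam * M * m ^ (n + 1)) := by ring
        _ ≤ 2 ^ (k + 1) * (K / lam * M * m ^ (n + 1)) := mul_le_mul_of_nonneg_right h3 h4
        _ = (2 ^ (k + 1) * (K / lam) * M * m) * m ^ n := by ring
    have h5 := h (deriv fun y => (deriv θ y)⁻¹ • a y) θ A B (2 ^ (k + 1) * (K / lam) * M * m) m lam hAB hdsm hθ hsupp hm
      hlam (by positivity) hlo (fun n h1 h2 => hup n h1 (by omega)) hb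
    refine h5.trans (le_of_eq ?_)
    rw [pow_succ (m / lam) k]
    field_simp

end Pool.Agent.RPQ
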